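import Pool.Agent.Helper91.MC9.Spec

set_option autoImplicit false

namespace Pool.Agent.Helper9.MC9.CONT

open SimpleGraph Pool.Agent.Helper91.MC9

/-- the contraction of the edge `xy` -/
def con {W : Type} (Q : SimpleGraph W) (x y : W) : SimpleGraph {z : W // z ≠ y} where
  Adj a b := a ≠ b ∧ (Q.Adj a.1 b.1 ∨ (a.1 = x ∧ Q.Adj y b.1) ∨ (b.1 = x ∧ Q.Adj y a.1))
  symm := ⟨by
    rintro a b ⟨h, h1 | h1 | h1⟩
    · exact ⟨h.symm, Or.inl h1.symm⟩
    · exact ⟨h.symm, Or.inr (Or.inr h1)⟩
    · exact ⟨h.symm, Or.inr (Or.inl h1)⟩⟩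
  loopless := ⟨fun a h => h.1 rfl⟩

theorem con_minor {W : Type} (Q : SimpleGraph W) (x y : W) (hxy : Q.Adj x y) :
    IsMinor (con Q x y) Q := by
  classical
  refine ⟨fun z => {w | w = z.1 ∨ (z.1 = x ∧ w = y)}, ?_, ?_, ?_⟩
  · intro z
    by_cases hz : z.1 = x
    · have : {w | w = z.1 ∨ (z.1 = x ∧ w = y)} = ({x, y} : Set W) := by
        ext w; simp [hz]
      show (Q.induce {w | w = z.1 ∨ (z.1 = x ∧ w = y)}).Connected
      rw [this]
      exact induce_pair_connected_of_adj hxy
    · have : {w | w = z.1 ∨ (z.1 = x ∧ w = y)} = ({z.1} : Set W) := by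
        ext w; simp [hz]
      show (Q.induce {w | w = z.1 ∨ (z.1 = x ∧ w = y)}).Connected
      rw [this]
      have : Subsingleton ({z.1} : Set W) := ⟨fun a b => Subtype.ext (a.2.trans b.2.symm)⟩
      have : Nonempty ({z.1} : Set W) := ⟨⟨z.1, rfl⟩⟩
      exact ⟨Preconnected.of_subsingleton⟩
  · intro a b hab
    rw [Set.disjoint_left]
    rintro w (h1 | h1) (h2 | h2)
    · exact hab (Subtype.ext (h1.symm.trans h2))
    · exact a.2 (h1.symm.trans h2.2)
    · exact b.2 (h2.symm.trans h1.2)
    · exact hab (Subtype.ext (h1.1.trans h2.1.symm))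
  · rintro a b ⟨-, h | h | h⟩
    · exact ⟨a.1, Or.inl rfl, b.1, Or.inl rfl, h⟩
    · exact ⟨y, Or.inr ⟨h.1, rfl⟩, b.1, Or.inl rfl, h.2⟩
    · exact ⟨a.1, Or.inl rfl, y, Or.inr ⟨h.1, rfl⟩, h.2.symm⟩

theorem main : S_CON := by
  classical
  intro W _ Q x y hxy
  refine ⟨con Q x y, con_minor Q x y hxy, ?_⟩
  have hne : x ≠ y := hxy.ne
  set N : Set W := {z : W | Q.Adj x z ∧ Q.Adj y z} with hN
  set S : Set (Sym2 W) := {s(x, y)} ∪ (fun z => s(y, z)) '' N with hS
  let c : W → {z : W // z ≠ y} := fun z => if h : z = y then ⟨x, hne⟩ else ⟨z, h⟩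
  have hcy : ∀ z, z ≠ y → (c z).1 = z := by
    intro z hz; simp only [c, dif_neg hz]
  have hcy' : (c y).1 = x := by simp only [c, dif_pos]
  have hc : ∀ a b, c a = c b → a = b ∨ (a = x ∧ b = y) ∨ (a = y ∧ b = x) := by
    intro a b hab
    have h := congrArg Subtype.val hab
    by_cases ha : a = y
    · subst ha
      by_cases hb : b = a
      · exact Or.inl hb.symm
      · rw [hcy', hcy b hb] at h
        exact Or.inr (Or.inr ⟨rfl, h.symm⟩)
    · by_cases hb : b = y
      · subst hb
        rw [hcy', hcy a ha] at h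
        exact Or.inr (Or.inl ⟨h, rfl⟩)
      · rw [hcy a ha, hcy b hb] at h
        exact Or.inl h
  have h1 : (Q.edgeSet \ S).ncard ≤ (con Q x y).edgeSet.ncard := by
    refine Set.ncard_le_ncard_of_injOn (Sym2.map c) ?_ ?_ (Set.toFinite _)
    · intro e he
      induction e with
      | _ a b =>
      obtain ⟨hab, hnS⟩ := he
      rw [mem_edgeSet] at hab
      have hnxy : s(a, b) ≠ s(x, y) := fun h => hnS (Or.inl h)
      rw [Sym2.map_mk, mem_edgeSet]
      refine ⟨?_, ?_⟩
      · intro h
        rcases hc a b h with h | ⟨h, h'⟩ | ⟨h, h'⟩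
        · exact hab.ne h
        · exact hnxy (by rw [h, h'])
        · exact hnxy (by rw [h, h']; exact Sym2.eq_swap)
      · by_cases ha : a = y
        · subst ha
          right; left
          refine ⟨hcy', ?_⟩
          rw [hcy b hab.ne']
          exact hab
        · by_cases hb : b = y
          · subst hb
            right; right
            refine ⟨hcy', ?_⟩
            rw [hcy a ha]
            exact hab.symm
          · left
            rw [hcy a ha, hcy b hb]
            exact hab
    · intro e he e' he' hee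
      induction e with
      | _ a b =>
      induction e' with
      | _ a' b' =>
      obtain ⟨hab, hnS⟩ := he
      obtain ⟨hab', hnS'⟩ := he'
      rw [mem_edgeSet] at hab hab'
      -- the ordered case
      have key : ∀ a b a' b' : W, Q.Adj a b → Q.Adj a' b' → s(a, b) ∉ S → s(a', b') ∉ S →
          c a = c a' → c b = c b' → a = a' ∧ b = b' := by
        have key1 : ∀ a b a' b' : W, Q.Adj a b → Q.Adj a' b' → s(a, b) ∉ S → s(a', b') ∉ S →
            c a = c a' → c b = c b' → a = a' := by
          intro a b a' b' hab hab' hnS hnS' h1 h2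
          have hN1 : ∀ z, Q.Adj x z → Q.Adj y z → s(y, z) ∈ S :=
            fun z hz hz' => Or.inr ⟨z, ⟨hz, hz'⟩, rfl⟩
          have hN0 : s(x, y) ∈ S := Or.inl rfl
          have hN0' : s(y, x) ∈ S := by rw [Sym2.eq_swap]; exact hN0
          rcases hc a a' h1 with h | ⟨h, h'⟩ | ⟨h, h'⟩
          · exact h
          · subst h; subst h'
            rcases hc b b' h2 with h3 | ⟨h3, h3'⟩ | ⟨h3, h3'⟩
            · subst h3
              exact absurd (hN1 b hab hab') hnS'
            · exact absurd h3 hab.ne'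
            · subst h3
              exact absurd hN0 hnS
          · subst h; subst h'
            rcases hc b b' h2 with h3 | ⟨h3, h3'⟩ | ⟨h3, h3'⟩
            · subst h3
              exact absurd (hN1 b hab' hab) hnS
            · subst h3
              exact absurd hN0' hnS
            · exact absurd h3 hab.ne'
        intro a b a' b' hab hab' hnS hnS' h1 h2
        refine ⟨key1 a b a' b' hab hab' hnS hnS' h1 h2, ?_⟩
        exact key1 b a b' a' hab.symm hab'.symm (by rwa [Sym2.eq_swap]) (by rwa [Sym2.eq_swap])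
          h2 h1
      rw [Sym2.map_mk, Sym2.map_mk, Sym2.eq_iff] at hee
      rcases hee with ⟨h1, h2⟩ | ⟨h1, h2⟩
      · obtain ⟨h3, h4⟩ := key a b a' b' hab hab' hnS hnS' h1 h2
        rw [h3, h4]
      · obtain ⟨h3, h4⟩ := key a b b' a' hab hab'.symm hnS (by rwa [Sym2.eq_swap]) h1 h2
        rw [h3, h4]
        exact Sym2.eq_swap
  have h2 : S.ncard ≤ 1 + N.ncard := by
    refine (Set.ncard_union_le _ _).trans ?_
    rw [Set.ncard_singleton]
    exact Nat.add_le_add_left (Set.ncard_image_le (Set.toFinite _)) 1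
  have h3 : Q.edgeSet.ncard ≤ (Q.edgeSet \ S).ncard + S.ncard :=
    Set.ncard_le_ncard_sdiff_add_ncard _ _ (Set.toFinite _)
  omega

end Pool.Agent.Helper9.MC9.CONT
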